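import Pool.Agent.Helper53.KZ.MinU
import Pool.Agent.Helper18.Katz7

/-!
Support file for MP_0aa406_nt (helper53): convolutions on `ZMod n`, inverses, units of the
integral group ring.
-/

set_option autoImplicit false

namespace Pool.Agent.Helper53.KZ

open Finset Polynomial Pool.Agent.Helper18.Katz

section general

variable {n : ℕ} [NeZero n]

/-- convolution -/
def cv {A : Type*} [CommRing A] (u f : ZMod n → A) (s : ZMod n) : A := ∑ l, u l * f (s - l)

theorem cv_comm {A : Type*} [CommRing A] (u f : ZMod n → A) : cv u f = cv f u := by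
  funext s
  unfold cv
  exact Fintype.sum_equiv (Equiv.subLeft s) _ _ (fun l => by simp [mul_comm])

theorem cv_assoc {A : Type*} [CommRing A] (a b c : ZMod n → A) :
    cv (cv a b) c = cv a (cv b c) := by
  funext s
  unfold cv
  simp_rw [Finset.sum_mul, Finset.mul_sum]
  rw [Finset.sum_comm]
  apply Finset.sum_congr rfl
  intro k _
  refine Fintype.sum_equiv (Equiv.subRight k) _ _ (fun l => ?_)
  simp only [Equiv.subRight_apply]
  have : s - k - (l - k) = s - l := by ring
  rw [this]; ring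

/-- reflection -/
def star' {A : Type*} (u : ZMod n → A) (s : ZMod n) : A := u (-s)

theorem star_cv {A : Type*} [CommRing A] (u f : ZMod n → A) :
    star' (cv u f) = cv (star' u) (star' f) := by
  funext s
  unfold star' cv
  refine Fintype.sum_equiv (Equiv.neg _) _ _ (fun l => ?_)
  simp only [Equiv.neg_apply, neg_neg]
  have : -s - l = -(s - -l) := by ring
  rw [this]

/-- the unit -/
def dl (n : ℕ) [NeZero n] (k : ZMod n) (s : ZMod n) : ℤ := if s = k then 1 else 0

theorem cv_dl (k : ZMod n) (f : ZMod n → ℤ) (s : ZMod n) : cv (dl n k) f s = f (s - k) := by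
  unfold cv dl
  rw [Finset.sum_eq_single k]
  · simp
  · intro b _ hb; simp [hb]
  · intro h; exact absurd (mem_univ _) h

theorem star_dl_zero : star' (dl n 0) = dl n 0 := by
  funext s
  simp [star', dl]

theorem sum_cv {A : Type*} [CommRing A] (u f : ZMod n → A) :
    ∑ s, cv u f s = (∑ l, u l) * ∑ l, f l := by
  unfold cv
  rw [Finset.sum_comm, Finset.sum_mul]
  apply Finset.sum_congr rfl
  intro l _
  rw [← Finset.mul_sum]
  congr 1
  exact Fintype.sum_equiv (Equiv.subRight l) _ _ (fun s => rfl)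

theorem sum_dl (k : ZMod n) : ∑ s, dl n k s = 1 := by
  unfold dl; simp

theorem sum_star {A : Type*} [CommRing A] (u : ZMod n → A) : ∑ s, star' u s = ∑ s, u s :=
  Fintype.sum_equiv (Equiv.neg _) _ _ (fun s => rfl)

/-- value at a root of unity -/
noncomputable def ev (ζ : ℂ) (f : ZMod n → ℂ) : ℂ := ∑ i, f i * ζ ^ i.val

theorem zeta_add (ζ : ℂ) (hζ : ζ ^ n = 1) (a b : ZMod n) :
    ζ ^ (a + b).val = ζ ^ a.val * ζ ^ b.val := by
  rw [← pow_add, ZMod.val_add]
  conv_rhs => rw [← Nat.div_add_mod (a.val + b.val) n, pow_add, pow_mul, hζ, one_pow, one_mul]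

theorem ev_cv (ζ : ℂ) (hζ : ζ ^ n = 1) (u f : ZMod n → ℂ) :
    ev ζ (cv u f) = ev ζ u * ev ζ f := by
  unfold ev cv
  simp_rw [Finset.sum_mul]
  rw [Finset.sum_comm]
  apply Finset.sum_congr rfl
  intro l _
  rw [Finset.mul_sum]
  refine Fintype.sum_equiv (Equiv.subRight l) _ _ (fun s => ?_)
  simp only [Equiv.subRight_apply]
  have h1 := zeta_add ζ hζ l (s - l)
  rw [add_sub_cancel] at h1
  rw [h1]; ring

theorem eq_zero_of_ev (f : ZMod n → ℂ) (h : ∀ ζ : ℂ, ζ ^ n = 1 → ev ζ f = 0) : f = 0 := by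
  have hn := NeZero.pos n
  set F : ℂ[X] := ∑ i : ZMod n, C (f i) * X ^ i.val with hF
  have hcoef : ∀ j : ZMod n, F.coeff j.val = f j := by
    intro j
    rw [hF, finsetSum_coeff]
    simp only [coeff_C_mul, coeff_X_pow]
    rw [Finset.sum_eq_single j]
    · simp
    · intro b _ hb
      have : ¬ j.val = b.val := fun h => hb (ZMod.val_injective n h.symm)
      simp [this]
    · intro h; exact absurd (mem_univ _) h
  have hdeg : F.natDegree < n := by
    have : F.natDegree ≤ n - 1 := by
      rw [hF]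
      apply natDegree_sum_le_of_forall_le
      intro i _
      refine (natDegree_C_mul_X_pow_le _ _).trans ?_
      have := ZMod.val_lt i
      omega
    omega
  have hzero : F = 0 := by
    apply eq_zero_of_natDegree_lt_card_of_eval_eq_zero' F (nthRootsFinset n (1 : ℂ))
    · intro ζ hζ
      rw [mem_nthRootsFinset hn] at hζ
      have := h ζ hζ
      unfold ev at this
      rw [hF, eval_finsetSum]
      simpa using this
    · rw [(Complex.isPrimitiveRoot_exp n hn.ne').card_nthRootsFinset]
      exact hdeg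
  funext j
  rw [← hcoef j, hzero]; simp

theorem inj_of_ev (u : ZMod n → ℂ) (hu : ∀ ζ : ℂ, ζ ^ n = 1 → ev ζ u ≠ 0) (f : ZMod n → ℂ)
    (h : ∀ s, cv u f s = 0) : f = 0 := by
  apply eq_zero_of_ev
  intro ζ hζ
  have h1 := ev_cv ζ hζ u f
  have h2 : cv u f = 0 := funext h
  rw [h2] at h1
  have h3 : ev ζ (0 : ZMod n → ℂ) = 0 := by unfold ev; simp
  rw [h3] at h1
  rcases mul_eq_zero.mp h1.symm with h4 | h4
  · exact absurd h4 (hu ζ hζ)
  · exact h4

theorem inj_int (u : ZMod n → ℤ) (hu : ∀ ζ : ℂ, ζ ^ n = 1 → ev ζ (fun i => (u i : ℂ)) ≠ 0)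
    (f : ZMod n → ℤ) (h : ∀ s, cv u f s = 0) (t : ZMod n) : f t = 0 := by
  have h1 := inj_of_ev (fun i => (u i : ℂ)) hu (fun i => (f i : ℂ)) (by
    intro s
    have h2 := h s
    unfold cv at h2
    have h3 : ((∑ l, u l * f (s - l) : ℤ) : ℂ) = 0 := by rw [h2]; simp
    unfold cv
    push_cast at h3
    exact h3)
  have := congrFun h1 t
  simpa using this

/-- an invertible element has an integral multiple of an inverse -/
theorem exists_inv (u : ZMod n → ℤ)
    (hu : ∀ ζ : ℂ, ζ ^ n = 1 → ev ζ (fun i => (u i : ℂ)) ≠ 0) :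
    ∃ (v : ZMod n → ℤ) (D : ℤ), 0 < D ∧ ∀ s, cv u v s = D * dl n 0 s := by
  set L : (ZMod n → ℚ) →ₗ[ℚ] (ZMod n → ℚ) :=
    { toFun := fun f => cv (fun i => (u i : ℚ)) f
      map_add' := by
        intro f g
        funext s
        simp only [cv, Pi.add_apply, mul_add, Finset.sum_add_distrib]
      map_smul' := by
        intro c f
        funext s
        simp only [cv, Pi.smul_apply, smul_eq_mul, RingHom.id_apply, Finset.mul_sum]
        exact Finset.sum_congr rfl (fun i _ => by ring) } with hL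
  have hinj : Function.Injective L := by
    rw [injective_iff_map_eq_zero]
    intro f hf
    have h1 := inj_of_ev (fun i => (u i : ℂ)) hu (fun i => ((f i : ℚ) : ℂ)) (by
      intro s
      have h2 : cv (fun i => (u i : ℚ)) f s = 0 := congrFun hf s
      unfold cv at h2
      have h3 : ((∑ l, (u l : ℚ) * f (s - l) : ℚ) : ℂ) = 0 := by rw [h2]; simp
      unfold cv
      push_cast at h3
      exact h3)
    funext t
    have := congrFun h1 t
    simpa using this
  obtain ⟨f, hf⟩ := (LinearMap.injective_iff_surjective.mp hinj) (fun s => (dl n 0 s : ℚ))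
  obtain ⟨b, hb⟩ := IsLocalization.exist_integer_multiples_of_finite (nonZeroDivisors ℤ) f
  have hb0 : (b : ℤ) ≠ 0 := nonZeroDivisors.ne_zero b.2
  choose g hg using hb
  have hg' : ∀ i, (g i : ℚ) = (b : ℤ) * f i := by
    intro i
    have := hg i
    simpa [Submonoid.smul_def] using this
  have hconv : ∀ s, cv u g s = (b : ℤ) * dl n 0 s := by
    intro s
    have h1 : cv (fun i => (u i : ℚ)) f s = (dl n 0 s : ℚ) := congrFun hf s
    have h2 : ((cv u g s : ℤ) : ℚ) = (((b : ℤ) * dl n 0 s : ℤ) : ℚ) := by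
      push_cast
      rw [← h1]
      unfold cv
      push_cast
      rw [Finset.mul_sum]
      exact Finset.sum_congr rfl (fun i _ => by rw [hg']; ring)
    exact_mod_cast h2
  rcases lt_or_gt_of_ne hb0 with h | h
  · refine ⟨fun i => - g i, -(b : ℤ), by linarith, fun s => ?_⟩
    have := hconv s
    unfold cv at this ⊢
    simp only [mul_neg, Finset.sum_neg_distrib, this]
    ring
  · exact ⟨g, b, h, hconv⟩

theorem ev_ne_zero_prime (hn : n.Prime) (u : ZMod n → ℤ) (hu : ¬ ∃ c, ∀ i, u i = c)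
    (hsum : ∑ i, u i ≠ 0) (ζ : ℂ) (hζ : ζ ^ n = 1) : ev ζ (fun i => (u i : ℂ)) ≠ 0 := by
  obtain ⟨A, B, R, hR, hAB⟩ := bezout_int hn u hu hsum
  have h1 := congrArg (aeval ζ) hAB
  have h2 : aeval ζ (toPoly n u) = ev ζ (fun i => (u i : ℂ)) := by
    unfold toPoly ev
    simp
  rw [map_add, map_mul, map_mul, h2, map_sub, map_pow, aeval_X, map_one, hζ, sub_self, mul_zero,
    add_zero] at h1
  intro h0
  rw [h0, mul_zero] at h1
  have h3 : (aeval ζ (C R : ℤ[X])) = (R : ℂ) := by simp
  rw [h3] at h1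
  exact hR.ne' (by exact_mod_cast h1.symm)

/-- no zero divisors among the sets, prime order -/
theorem nz_prime (hn : n.Prime) (Y : Finset (ZMod n)) (hY : Y.Nonempty) (hYu : Y ≠ univ)
    (f : ZMod n → ℤ) (h : ∀ s, ∑ l ∈ Y, f (s - l) = 0) (t : ZMod n) : f t = 0 := by
  classical
  refine inj_int (fun i => if i ∈ Y then 1 else 0) ?_ f ?_ t
  · apply ev_ne_zero_prime hn
    · rintro ⟨c, hc⟩
      obtain ⟨y, hy⟩ := hY
      have h1 := hc y
      rw [if_pos hy] at h1
      apply hYu
      apply Finset.eq_univ_of_forall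
      intro z
      by_contra hz
      have h2 := hc z
      rw [if_neg hz] at h2
      omega
    · rw [Finset.sum_ite_mem, univ_inter, Finset.sum_const, nsmul_eq_mul, mul_one]
      have := Finset.card_pos.mpr hY
      exact_mod_cast this.ne'
  · intro s
    refine Eq.trans ?_ (h s)
    unfold cv
    simp only [ite_mul, one_mul, zero_mul]
    rw [Finset.sum_ite_mem, univ_inter]

/-- composition of the action with a convolution inverse -/
theorem act_act (m m1 : ZMod n → ℤ) (D : ℤ) (h : ∀ s, cv m m1 s = D * dl n 0 s)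
    (w : ZMod n → ℤ) (l : ZMod n) : act m (act m1 w) l = D * w l := by
  have h1 : act m (act m1 w) l = ∑ k, cv m m1 k * w (l + k) := by
    unfold act cv
    simp_rw [Finset.mul_sum, Finset.sum_mul]
    conv_rhs => rw [Finset.sum_comm]
    apply Finset.sum_congr rfl
    intro i _
    refine Fintype.sum_equiv (Equiv.addLeft i) _ _ (fun j => ?_)
    simp only [Equiv.coe_addLeft, add_sub_cancel_left]
    rw [add_assoc]; ring
  rw [h1]
  simp_rw [h]
  unfold dl
  rw [Finset.sum_eq_single 0]
  · simp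
  · intro b _ hb; simp [hb]
  · intro h; exact absurd (mem_univ _) h

theorem neg_ediv {a N : ℤ} (hN : 0 < N) (h : ¬ N ∣ a) : (-a) / N = -(a / N) - 1 := by
  have h1 := Int.mul_ediv_add_emod a N
  have h2 := Int.emod_nonneg a hN.ne'
  have h3 := Int.emod_lt_of_pos a hN
  have h4 : a % N ≠ 0 := fun h0 => h (Int.dvd_of_emod_eq_zero h0)
  have h5 : -a = (N - a % N) + N * (-(a / N) - 1) := by linear_combination h1
  rw [h5, Int.add_mul_ediv_left _ _ hN.ne', Int.ediv_eq_zero_of_lt (by omega) (by omega)]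
  ring

/-- the value does not change when `α` is replaced by its inverse -/
theorem TVal.inv {m m1 : ZMod n → ℤ} {D : ℤ} (hs : ∑ i, m i = 1) (hs1 : ∑ i, m1 i = D)
    (h : ∀ s, cv m m1 s = D * dl n 0 s) {c : ℤ} (hv : TVal m1 c) : TVal m c := by
  obtain ⟨N, w, hN, hw1, hw2, hc⟩ := hv
  rw [hs1] at hw1 hc
  have hact : ∀ i, act m (fun j => - act m1 w j) i = -(D * w i) := by
    intro i
    rw [act_neg]
    congr 1
    exact act_act m m1 D h w i
  refine ⟨N, fun i => - act m1 w i, hN, fun i => ?_, fun i => ?_, ?_⟩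
  · rw [hs, one_mul, dvd_neg]
    exact hw2 i
  · rw [hact, dvd_neg]
    exact hw1 i
  · refine hc.trans (le_of_eq ?_)
    rw [hs]
    have e1 : ∀ i, (1 * -act m1 w i) / N = -(act m1 w i / N) - 1 := by
      intro i; rw [one_mul]; exact neg_ediv hN (hw2 i)
    have e2 : ∀ i, act m (fun j => - act m1 w j) i / N = -(D * w i / N) - 1 := by
      intro i; rw [hact]; exact neg_ediv hN (hw1 i)
    rw [Finset.sum_congr rfl (fun i _ => e1 i), Finset.sum_congr rfl (fun i _ => e2 i),
      Finset.sum_sub_distrib, Finset.sum_sub_distrib, Finset.sum_neg_distrib,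
      Finset.sum_neg_distrib]
    ring

/-- scaling -/
theorem TVal.scale {m m0 : ZMod n → ℤ} {R : ℤ} (hR : 0 < R) (hm : ∀ t, m t = R * m0 t)
    (hs : ∑ i, m0 i = 1) {c : ℤ} (hv : TVal m0 c) : TVal m c := by
  obtain ⟨N, w, hN, hw1, hw2, hc⟩ := hv
  rw [hs] at hw1 hc
  have hsum : ∑ i, m i = R := by
    rw [Finset.sum_congr rfl (fun i _ => hm i), ← Finset.mul_sum, hs, mul_one]
  have hact : ∀ i, act m w i = R * act m0 w i := by
    intro i
    unfold act
    rw [Finset.mul_sum]
    exact Finset.sum_congr rfl (fun j _ => by rw [hm]; ring)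
  refine ⟨R * N, w, mul_pos hR hN, fun i => ?_, fun i => ?_, ?_⟩
  · rw [hsum]
    intro h
    have := (mul_dvd_mul_iff_left hR.ne').mp h
    exact hw1 i (by rwa [one_mul])
  · rw [hact]
    intro h
    exact hw2 i ((mul_dvd_mul_iff_left hR.ne').mp h)
  · rw [hsum]
    refine hc.trans (le_of_eq ?_)
    congr 1
    · apply Finset.sum_congr rfl
      intro i _
      rw [one_mul, Int.mul_ediv_mul_of_pos _ _ hR]
    · apply Finset.sum_congr rfl
      intro i _
      rw [hact, Int.mul_ediv_mul_of_pos _ _ hR]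

end general

end Pool.Agent.Helper53.KZ
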