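import Pool.Agent.Helper53.KZ.Tors2
import Pool.Agent.Helper18.Katz10

/-!
Support file for MP_0aa406_nt (helper53): torsion points with a minimal set of integral coordinates.
There are no stuck subsets of such a set when the excess is two.
-/

set_option autoImplicit false

namespace Pool.Agent.Helper53.KZ

open Finset Pool.Agent.Helper18.Katz

variable {n : ℕ} [NeZero n]

/-- the integral coordinates at the torsion point `x / D` -/
def ZS (m : ZMod n → ℤ) (D : ℤ) (x : ZMod n → ℤ) : Finset (ZMod n) :=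
  univ.filter (fun l => D ∣ act m x l)

/-- `x` has the least number of integral coordinates -/
def MinAt (m : ZMod n → ℤ) (D : ℤ) (x : ZMod n → ℤ) : Prop :=
  ∀ y, (ZS m D x).card ≤ (ZS m D y).card

theorem exists_minAt (m : ZMod n → ℤ) (D : ℤ) : ∃ x, MinAt m D x := by
  classical
  have h : ∃ k, ∃ x, (ZS m D x).card = k := ⟨_, fun _ => 0, rfl⟩
  obtain ⟨x, hx⟩ := Nat.find_spec h
  refine ⟨x, fun y => ?_⟩
  rw [hx]
  exact Nat.find_min' h ⟨y, rfl⟩

/-- the averaging inequality at a minimal point -/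
theorem minAt_row (m : ZMod n → ℤ) (g : ℤ) (hg : g ≠ 0) (q : ℕ) (hq : q.Prime)
    (hgm : ∀ t, g ∣ m t) (x : ZMod n → ℤ) (hx : MinAt m (g * q) x) (s : ZMod n) :
    q * ((ZS m (g * q) x).filter (fun l => ¬ (g * q) ∣ m (s - l))).card ≤
      (univ.filter (fun l : ZMod n => ¬ (g * q) ∣ m (s - l))).card := by
  set D : ℤ := g * q with hD
  set T := univ.filter (fun l : ZMod n => ¬ D ∣ m (s - l)) with hT
  -- the perturbed points
  set X : ℕ → ZMod n → ℤ := fun c i => x i + (if i = s then (c : ℤ) else 0) with hX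
  have hact : ∀ c l, act m (X c) l = act m x l + c * m (s - l) := by
    intro c l
    rw [hX]
    simp only
    rw [act_add (n := n) m x (fun i => if i = s then (c : ℤ) else 0), act_single]
  have hcard : ∀ c, (ZS m D (X c)).card =
      ((ZS m D x).filter (fun l => D ∣ m (s - l))).card +
        (T.filter (fun l => D ∣ act m (X c) l)).card := by
    intro c
    rw [← Finset.card_filter_add_card_filter_not (s := ZS m D (X c)) (fun l => D ∣ m (s - l))]
    congr 2
    · ext l
      simp only [ZS, mem_filter, mem_univ, true_and]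
      constructor
      · rintro ⟨h1, h2⟩
        rw [hact] at h1
        exact ⟨(Int.dvd_add_left (h2.mul_left _)).mp h1, h2⟩
      · rintro ⟨h1, h2⟩
        rw [hact]
        exact ⟨dvd_add h1 (h2.mul_left _), h2⟩
    · ext l
      simp only [ZS, hT, mem_filter, mem_univ, true_and]
      tauto
  have hsum : ∑ c ∈ range q, (T.filter (fun l => D ∣ act m (X c) l)).card ≤ T.card := by
    have h1 : ∀ c, (T.filter (fun l => D ∣ act m (X c) l)).card =
        ∑ l ∈ T, if D ∣ act m (X c) l then 1 else 0 := by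
      intro c; rw [Finset.card_filter]
    rw [Finset.sum_congr rfl (fun c _ => h1 c), Finset.sum_comm]
    have h2 : ∀ l ∈ T, (∑ c ∈ range q, if D ∣ act m (X c) l then 1 else 0) ≤ 1 := by
      intro l hl
      rw [← Finset.card_filter, Finset.card_le_one]
      intro c hc c' hc'
      simp only [mem_filter, mem_range] at hc hc'
      have hl' : ¬ D ∣ m (s - l) := by simpa [hT] using hl
      have h3 : D ∣ ((c : ℤ) - c') * m (s - l) := by
        have h4 := dvd_sub hc.2 hc'.2
        rw [hact, hact] at h4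
        have : (c : ℤ) * m (s - l) - c' * m (s - l) = ((c : ℤ) - c') * m (s - l) := by ring
        rw [← this]
        have h5 : act m x l + c * m (s - l) - (act m x l + c' * m (s - l)) =
            (c : ℤ) * m (s - l) - c' * m (s - l) := by ring
        rwa [h5] at h4
      obtain ⟨b, hb⟩ := hgm (s - l)
      rw [hb] at h3 hl'
      have h4 : (q : ℤ) ∣ ((c : ℤ) - c') * b := by
        rw [hD] at h3
        have h5 : ((c : ℤ) - c') * (g * b) = g * (((c : ℤ) - c') * b) := by ring
        rw [h5] at h3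
        exact (mul_dvd_mul_iff_left hg).mp h3
      have hqb : ¬ (q : ℤ) ∣ b := fun h => hl' (by rw [hD]; exact mul_dvd_mul_left g h)
      have h5 : (q : ℤ) ∣ (c : ℤ) - c' :=
        ((Nat.prime_iff_prime_int.mp hq).dvd_or_dvd h4).resolve_right hqb
      have h6 : |(c : ℤ) - c'| < q := by
        rw [abs_lt]
        have h7 : (c : ℤ) < q := by exact_mod_cast hc.1
        have h8 : (c' : ℤ) < q := by exact_mod_cast hc'.1
        have h9 : (0 : ℤ) ≤ c := by positivity
        have h10 : (0 : ℤ) ≤ c' := by positivity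
        constructor <;> linarith
      have := Int.eq_zero_of_abs_lt_dvd h5 h6
      omega
    calc ∑ l ∈ T, (∑ c ∈ range q, if D ∣ act m (X c) l then 1 else 0) ≤ ∑ _l ∈ T, 1 :=
          Finset.sum_le_sum h2
      _ = T.card := by simp
  have hmin : ∑ _c ∈ range q, (ZS m D x).card ≤ ∑ c ∈ range q, (ZS m D (X c)).card :=
    Finset.sum_le_sum (fun c _ => hx (X c))
  rw [Finset.sum_congr rfl (fun c _ => hcard c), Finset.sum_add_distrib] at hmin
  simp only [Finset.sum_const, card_range, smul_eq_mul] at hmin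
  have hsplit := Finset.card_filter_add_card_filter_not (s := ZS m D x) (fun l => D ∣ m (s - l))
  have : q * (ZS m D x).card = q * ((ZS m D x).filter (fun l => D ∣ m (s - l))).card +
      q * ((ZS m D x).filter (fun l => ¬ D ∣ m (s - l))).card := by
    rw [← mul_add, hsplit]
  omega

/-- no stuck sets in a minimal set -/
theorem no_stuck (m : ZMod n → ℤ) (g : ℤ) (hg : g ≠ 0) (q : ℕ) (hq : q.Prime)
    (hgm : ∀ t, g ∣ m t) (hqm : ∃ t, ¬ (g * q) ∣ m t)
    (he : ((univ.filter (fun i => 0 < m i)).card : ℤ) - (univ.filter (fun i => m i < 0)).card = 2)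
    (hneg : ∃ t, m t < 0) (x : ZMod n → ℤ) (hx : MinAt m (g * q) x)
    (Y : Finset (ZMod n)) (hY : Y.Nonempty) (hYU : Y ⊆ ZS m (g * q) x)
    (hNZ : ∀ f : ZMod n → ℤ, (∀ s, ∑ l ∈ Y, f (s - l) = 0) → ∀ t, f t = 0) :
    ¬ Stuck m Y := by
  intro hst
  set D : ℤ := g * q with hD
  set τ := (univ.filter (fun t : ZMod n => ¬ D ∣ m t)).card with hτ
  have hτpos : 0 < τ := by
    obtain ⟨t, ht⟩ := hqm
    exact Finset.card_pos.mpr ⟨t, by simpa using ht⟩
  have hYpos : 0 < Y.card := Finset.card_pos.mpr hY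
  set V := univ.filter (fun s => ps m Y s + ng m Y s ≠ 0) with hV
  -- `|V| = 2 |Y|`
  have hdiff : ∀ s, (ps m Y s : ℤ) - ng m Y s = if s ∈ V then 1 else 0 := by
    intro s
    by_cases h : ps m Y s + ng m Y s ≠ 0
    · rw [if_pos (by simp [hV]; omega)]
      exact hst s h
    · have h3 : ps m Y s = 0 := by omega
      have h4 : ng m Y s = 0 := by omega
      rw [if_neg (by simp [hV]; omega), h3, h4]; simp
  have hVcard : (V.card : ℤ) = 2 * Y.card := by
    have h1 : (∑ s, ((ps m Y s : ℤ) - ng m Y s)) = V.card := by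
      rw [Finset.sum_congr rfl (fun s _ => hdiff s)]
      simp
    rw [← h1, Finset.sum_sub_distrib]
    have h3 : (∑ s, (ps m Y s : ℤ)) = Y.card * (univ.filter (fun i => 0 < m i)).card := by
      exact_mod_cast sum_ps m Y
    have h4 : (∑ s, (ng m Y s : ℤ)) = Y.card * (univ.filter (fun i => m i < 0)).card := by
      exact_mod_cast sum_ng m Y
    rw [h3, h4, ← mul_sub, he, mul_comm]
  -- rows
  set r : ZMod n → ℕ := fun s => (Y.filter (fun l => ¬ D ∣ m (s - l))).card with hr
  have hrsum : ∑ s, r s = Y.card * τ := by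
    have h1 : ∀ s, r s = ∑ l ∈ Y, if ¬ D ∣ m (s - l) then 1 else 0 := by
      intro s; rw [hr]; simp only; rw [Finset.card_filter]
    simp_rw [h1]
    rw [Finset.sum_comm]
    have h2 : ∀ l ∈ Y, (∑ s, if ¬ D ∣ m (s - l) then 1 else 0) = τ := by
      intro l _
      rw [hτ, Finset.card_filter]
      exact Fintype.sum_equiv (Equiv.subRight l) _ _ (fun s => by simp)
    rw [Finset.sum_congr rfl h2, Finset.sum_const, smul_eq_mul]
  have hTs : ∀ s : ZMod n, (univ.filter (fun l : ZMod n => ¬ D ∣ m (s - l))).card = τ := by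
    intro s
    rw [hτ, Finset.card_filter, Finset.card_filter]
    exact Fintype.sum_equiv (Equiv.subLeft s) _ _ (fun x => by simp)
  have hrle : ∀ s, q * r s ≤ τ := by
    intro s
    have h1 := minAt_row m g hg q hq hgm x hx s
    rw [← hD, hTs s] at h1
    refine le_trans (Nat.mul_le_mul_left q (Finset.card_le_card ?_)) h1
    exact Finset.filter_subset_filter _ hYU
  have hr0 : ∀ s, s ∉ V → r s = 0 := by
    intro s hs
    have hs' : ps m Y s + ng m Y s = 0 := by simpa [hV] using hs
    rw [hr]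
    simp only
    rw [Finset.card_eq_zero, Finset.filter_eq_empty_iff]
    intro l hl hdv
    have h3 : ps m Y s = 0 := by omega
    have h4 : ng m Y s = 0 := by omega
    unfold ps at h3
    unfold ng at h4
    rw [Finset.card_eq_zero, Finset.filter_eq_empty_iff] at h3 h4
    have : m (s - l) = 0 := le_antisymm (not_lt.mp (h3 hl)) (not_lt.mp (h4 hl))
    rw [this] at hdv
    exact hdv (dvd_zero D)
  have hsumV : ∑ s ∈ V, r s = Y.card * τ := by
    rw [← hrsum]
    exact Finset.sum_subset (Finset.subset_univ V) (fun s _ hs => hr0 s hs)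
  have hVn : V.card = 2 * Y.card := by exact_mod_cast hVcard
  have hqle : q ≤ 2 := by
    have h1 : ∑ s ∈ V, q * r s ≤ ∑ _s ∈ V, τ := Finset.sum_le_sum (fun s _ => hrle s)
    rw [← Finset.mul_sum, hsumV, Finset.sum_const, smul_eq_mul, hVn] at h1
    have h2 : q * (Y.card * τ) ≤ 2 * (Y.card * τ) := by
      calc q * (Y.card * τ) ≤ 2 * Y.card * τ := h1
        _ = 2 * (Y.card * τ) := by ring
    exact Nat.le_of_mul_le_mul_right h2 (Nat.mul_pos hYpos hτpos)
  have hq2 : q = 2 := le_antisymm hqle hq.two_le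
  have heq : ∀ s ∈ V, 2 * r s = τ := by
    have h1 : ∑ s ∈ V, 2 * r s = ∑ _s ∈ V, τ := by
      rw [← Finset.mul_sum, hsumV, Finset.sum_const, smul_eq_mul, hVn]; ring
    have h2 := (Finset.sum_eq_sum_iff_of_le (fun s _ => by
      have := hrle s; rw [hq2] at this; exact this)).mp h1
    exact h2
  -- the function
  obtain ⟨t, ht⟩ := hneg
  have hzero := hNZ (fun t => 2 * (if ¬ D ∣ m t then 1 else 0) -
    τ * ((if 0 < m t then 1 else 0) - (if m t < 0 then 1 else 0))) (by
      intro s
      rw [Finset.sum_sub_distrib, ← Finset.mul_sum, ← Finset.mul_sum, Finset.sum_sub_distrib]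
      have e1 : (∑ l ∈ Y, if ¬ D ∣ m (s - l) then (1 : ℤ) else 0) = r s := by
        rw [hr]; simp only; rw [Finset.card_filter]; push_cast; rfl
      have e2 : (∑ l ∈ Y, if 0 < m (s - l) then (1 : ℤ) else 0) = ps m Y s := by
        unfold ps; rw [Finset.card_filter]; push_cast; rfl
      have e3 : (∑ l ∈ Y, if m (s - l) < 0 then (1 : ℤ) else 0) = ng m Y s := by
        unfold ng; rw [Finset.card_filter]; push_cast; rfl
      rw [e1, e2, e3, hdiff s]
      by_cases hs : s ∈ V
      · rw [if_pos hs, mul_one]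
        have := heq s hs
        have h5 : ((2 * r s : ℕ) : ℤ) = τ := by exact_mod_cast this
        push_cast at h5
        linarith
      · rw [if_neg hs, hr0 s hs]
        simp) t
  have h6 : ¬ (0 < m t) := by linarith
  rw [if_pos ht, if_neg h6] at hzero
  have h7 : (0 : ℤ) < τ := by exact_mod_cast hτpos
  split_ifs at hzero <;> linarith

/-- the greedy play -/
theorem hasF_of_no_stuck (m : ZMod n → ℤ) : ∀ (U : Finset (ZMod n)),
    (∀ Y ⊆ U, Y.Nonempty → ¬ Stuck m Y) → HasF m U 0 := by
  intro U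
  induction' hU : U.card using Nat.strong_induction_on with c ih generalizing U
  intro hst
  rcases Finset.eq_empty_or_nonempty U with rfl | hne
  · exact hasF_empty m
  · have h1 := hst U (Finset.Subset.refl _) hne
    unfold Stuck at h1
    push Not at h1
    obtain ⟨s, h3, he⟩ := h1
    have hlt : (rs m U s).card < c := by rw [← hU]; exact rs_card_lt h3
    have h4 := ih _ hlt (rs m U s) rfl (fun Y hY => hst Y (hY.trans (rs_subset m U s)))
    have habs : 1 ≤ |(ps m U s : ℤ) - ng m U s - 1| := by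
      apply Int.one_le_abs
      intro h0
      apply he
      linarith
    exact (h4.step (U := U) s).mono (by linarith)

/-- excess two, not integral: the value -/
theorem tval_two (m : ZMod n → ℤ) (hR : 0 < ∑ i, m i)
    (hnon : ∃ t, ¬ (∑ i, m i) ∣ m t)
    (he : ((univ.filter (fun i => 0 < m i)).card : ℤ) - (univ.filter (fun i => m i < 0)).card = 2)
    (hneg : ∃ t, m t < 0)
    (hNZ : ∀ Y : Finset (ZMod n), Y.Nonempty → Y ≠ univ → ∀ f : ZMod n → ℤ,
      (∀ s, ∑ l ∈ Y, f (s - l) = 0) → ∀ t, f t = 0) (c : ℤ) (hc : 2 * c ≤ n) :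
    TVal m c := by
  classical
  set R := ∑ i, m i with hRdef
  set g : ℤ := univ.gcd m with hg
  have hgm : ∀ t, g ∣ m t := fun t => Finset.gcd_dvd (mem_univ t)
  have hgR : g ∣ R := Finset.dvd_sum (fun i _ => hgm i)
  obtain ⟨R', hR'⟩ := hgR
  have hg0 : 0 ≤ g := by
    have h1 : normalize g = g := Finset.normalize_gcd
    rw [← h1, ← Int.abs_eq_normalize]
    exact abs_nonneg g
  have hgne : g ≠ 0 := by
    rintro h0
    rw [h0, zero_mul] at hR'
    omega
  have hgpos : 0 < g := lt_of_le_of_ne hg0 (Ne.symm hgne)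
  have hR'pos : 0 < R' := by
    by_contra hcon
    push Not at hcon
    nlinarith
  have hR'1 : R' ≠ 1 := by
    rintro h1
    obtain ⟨t, ht⟩ := hnon
    apply ht
    rw [hR', h1, mul_one]
    exact hgm t
  obtain ⟨q, hq, hqR⟩ := Nat.exists_prime_and_dvd (n := R'.toNat) (by omega)
  have hqR' : (q : ℤ) ∣ R' := by
    have h1 : ((R'.toNat : ℕ) : ℤ) = R' := Int.toNat_of_nonneg hR'pos.le
    rw [← h1]
    exact_mod_cast hqR
  have hqpos : (0 : ℤ) < q := by exact_mod_cast hq.pos
  have hDR : g * q ∣ R := by rw [hR']; exact mul_dvd_mul_left g hqR'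
  have hqm : ∃ t, ¬ (g * q) ∣ m t := by
    by_contra hcon
    push Not at hcon
    have h1 : g * q ∣ g := Finset.dvd_gcd (fun t _ => hcon t)
    have h2 : g * q ∣ g * 1 := by rwa [mul_one]
    have h3 : (q : ℤ) ∣ 1 := (mul_dvd_mul_iff_left hgne).mp h2
    have h4 : q ∣ 1 := by exact_mod_cast h3
    exact hq.one_lt.ne' (Nat.dvd_one.mp h4)
  obtain ⟨x, hx⟩ := exists_minAt m (g * q)
  have hns : ∀ Y ⊆ ZS m (g * q) x, Y.Nonempty → ¬ Stuck m Y := by
    intro Y hYU hY
    by_cases hYuniv : Y = univ
    · subst hYuniv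
      intro hst
      obtain ⟨t, ht⟩ := hneg
      have h1 : 0 < (univ.filter (fun i => m i < 0)).card :=
        Finset.card_pos.mpr ⟨t, by simpa using ht⟩
      have h2 := hst 0 (by rw [ps_univ, ng_univ]; omega)
      rw [ps_univ, ng_univ, he] at h2
      norm_num at h2
    · exact no_stuck m g hgne q hq hgm hqm he hneg x hx Y hY hYU (hNZ Y hY hYuniv)
  obtain ⟨v, hv, hv2⟩ := hasF_of_no_stuck m _ hns
  refine tval_of_tors m hR (g * q) (mul_pos hgpos hqpos) hDR x v c hv ?_
  change 2 * c ≤ n - (ZS m (g * q) x).card + 2 * v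
  linarith

end Pool.Agent.Helper53.KZ
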