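import Pool.Agent.Helper18.Katz9

/-!
Support file for MP_0aa406_nt (helper53): the local computation at a rational point `w / N`.
-/

set_option autoImplicit false

namespace Pool.Agent.Helper53.KZ

open Finset Pool.Agent.Helper18.Katz

variable {n : ℕ} [NeZero n]

/-- value at least `c` at the rational point `w / N` -/
def TVal (m : ZMod n → ℤ) (c : ℤ) : Prop :=
  ∃ (N : ℤ) (w : ZMod n → ℤ), 0 < N ∧ (∀ i, ¬ N ∣ (∑ k, m k) * w i) ∧ (∀ i, ¬ N ∣ act m w i) ∧
    c ≤ ∑ i, ((∑ k, m k) * w i / N) - ∑ i, (act m w i / N)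

theorem TVal.mono {m : ZMod n → ℤ} {c c' : ℤ} (h : TVal m c) (hc : c' ≤ c) : TVal m c' := by
  obtain ⟨N, w, h1, h2, h3, h4⟩ := h
  exact ⟨N, w, h1, h2, h3, hc.trans h4⟩

/-- the local computation near the point `X / N` -/
theorem W_tors {p : ℕ} (hp : 2 ≤ p) (N E X0 : ℤ) (hN : 0 < N) (hE : 0 ≤ E) (X y : ZMod n → ℤ)
    (hX : ∀ i, ¬ N ∣ X i) (hX0 : ∀ i, |X i| ≤ X0) (hy : ∀ i, |N * y i - p * X i| ≤ E)
    (hpD : 3 * X0 + 2 * E + 3 ≤ p) (x : ℤ)
    (hx : x ≡ Y p n y 0 [ZMOD ((p : ℤ) ^ n - 1)]) :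
    ¬ ((p : ℤ) ^ n - 1) ∣ x ∧
    W p n x = (∑ i, y i) * G p n - ((p : ℤ) ^ n - 1) * ∑ i, X i / N := by
  have hn := NeZero.pos n
  have hp' : (2 : ℤ) ≤ p := by exact_mod_cast hp
  have hpn1 : (0 : ℤ) < (p : ℤ) ^ (n - 1) := by positivity
  have hpn : (p : ℤ) ^ n = p * (p : ℤ) ^ (n - 1) := by
    rw [← pow_succ']; congr 1; omega
  have hG := G_mul (p := p) (n := n)
  have hX00 : 0 ≤ X0 := (abs_nonneg _).trans (hX0 0)
  set Q : ℤ := (p : ℤ) ^ n - 1 with hQ
  set g := G p n with hg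
  set P := (p : ℤ) ^ (n - 1) with hP
  have hQ0 : 0 < Q := by rw [hQ, hpn]; nlinarith
  have hrest : ((p : ℤ) - 1) * (g - P) = P - 1 := by
    rw [mul_sub, hG, hQ, hpn]; ring
  have hgP : 0 ≤ g - P := by
    by_contra hcon
    push Not at hcon
    nlinarith
  -- bound for `N * y`
  have hB : ∀ i, |N * y i| ≤ p * X0 + E := by
    intro i
    have h1 := hy i
    have h2 := hX0 i
    have h3 : |N * y i| ≤ |N * y i - p * X i| + |(p : ℤ) * X i| := by
      have := abs_add_le (N * y i - p * X i) (p * X i)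
      rwa [sub_add_cancel] at this
    have h4 : |(p : ℤ) * X i| ≤ p * X0 := by
      rw [abs_mul, abs_of_nonneg (by linarith : (0 : ℤ) ≤ p)]
      exact mul_le_mul_of_nonneg_left h2 (by linarith)
    linarith
  have hYN : ∀ j, N * Y p n y j = Y p n (fun i => N * y i) j := by
    intro j
    unfold Y
    rw [Finset.mul_sum]
    exact Finset.sum_congr rfl (fun i _ => by ring)
  have hmain : ∀ j : ZMod n, |N * Y p n y j - X (j + 1) * Q| < Q := by
    intro j
    obtain ⟨_, h2⟩ := Y_bounds (p := p) (fun i => N * y i) (p * X0 + E) hB j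
    rw [← hYN j, ← hg, ← hP] at h2
    have h3 : (p * X0 + E) * (g - P) ≤ (2 * X0 + E) * (P - 1) := by
      have h4 : p * X0 + E ≤ ((p : ℤ) - 1) * (2 * X0 + E) := by nlinarith
      calc (p * X0 + E) * (g - P) ≤ (((p : ℤ) - 1) * (2 * X0 + E)) * (g - P) :=
            mul_le_mul_of_nonneg_right h4 hgP
        _ = (2 * X0 + E) * (((p : ℤ) - 1) * (g - P)) := by ring
        _ = (2 * X0 + E) * (P - 1) := by rw [hrest]
    have h5 : |N * y (j + 1) * P - X (j + 1) * (Q + 1)| ≤ E * P := by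
      have h6 : N * y (j + 1) * P - X (j + 1) * (Q + 1) = (N * y (j + 1) - p * X (j + 1)) * P := by
        rw [hQ, hpn]; ring
      rw [h6, abs_mul, abs_of_pos hpn1]
      exact mul_le_mul_of_nonneg_right (hy _) hpn1.le
    have h7 := hX0 (j + 1)
    have h8 := abs_le.mp h2
    have h9 := abs_le.mp h5
    have h10 := abs_le.mp h7
    have hQbig : (3 * X0 + 2 * E + 1) * P < Q := by
      rw [hQ, hpn]
      have : (3 * X0 + 2 * E + 3) * P ≤ p * P := mul_le_mul_of_nonneg_right hpD hpn1.le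
      nlinarith
    rw [abs_lt]
    have hP1 : 1 ≤ P := hpn1
    constructor <;> nlinarith
  have hdiv : ∀ j : ZMod n, (X (j + 1) / N) * Q < Y p n y j ∧
      Y p n y j < (X (j + 1) / N + 1) * Q := by
    intro j
    set k := X (j + 1) / N with hk
    set r := X (j + 1) % N with hr
    have h1 : X (j + 1) = N * k + r := (Int.mul_ediv_add_emod _ _).symm
    have h2 : 0 ≤ r := Int.emod_nonneg _ hN.ne'
    have h3 : r < N := Int.emod_lt_of_pos _ hN
    have h4 : r ≠ 0 := fun h => hX (j + 1) (Int.dvd_of_emod_eq_zero h)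
    have h5 : 1 ≤ r := by omega
    have h6 := abs_lt.mp (hmain j)
    constructor
    · by_contra hcon
      push Not at hcon
      have h7 : N * Y p n y j ≤ N * (k * Q) := mul_le_mul_of_nonneg_left hcon hN.le
      nlinarith [h6.1]
    · by_contra hcon
      push Not at hcon
      have h7 : N * ((k + 1) * Q) ≤ N * Y p n y j := mul_le_mul_of_nonneg_left hcon hN.le
      have h8 : (r + 1) * Q ≤ N * Q := mul_le_mul_of_nonneg_right (by omega) hQ0.le
      nlinarith [h6.2]
  have hmod : ∀ j : ZMod n, ((p : ℤ) ^ j.val * x) % Q = Y p n y j - Q * (X (j + 1) / N) := by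
    intro j
    have hc : (p : ℤ) ^ j.val * x ≡ Y p n y j - Q * (X (j + 1) / N) [ZMOD Q] := by
      have h1 := hx.mul_left ((p : ℤ) ^ j.val)
      have h2 := mul_Y (p := p) y j 0
      rw [add_zero] at h2
      refine (h1.trans h2).trans ?_
      rw [Int.modEq_iff_dvd]
      exact ⟨-(X (j + 1) / N), by ring⟩
    obtain ⟨s1, s2⟩ := hdiv j
    have h3 : (Y p n y j - Q * (X (j + 1) / N)) % Q = Y p n y j - Q * (X (j + 1) / N) :=
      Int.emod_eq_of_lt (by nlinarith) (by nlinarith)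
    rw [← h3]
    exact hc
  constructor
  · intro hdvd
    have h1 := hmod 0
    have h2 : ((p : ℤ) ^ (0 : ZMod n).val * x) % Q = 0 :=
      Int.emod_eq_zero_of_dvd (Dvd.dvd.mul_left hdvd _)
    rw [h2] at h1
    obtain ⟨s1, s2⟩ := hdiv 0
    nlinarith
  · unfold W
    rw [Finset.sum_congr rfl (fun j _ => hmod j), Finset.sum_sub_distrib, sum_Y, ← Finset.mul_sum]
    congr 2
    exact Fintype.sum_equiv (Equiv.addRight 1) _ _ (fun s => rfl)

/-- the local computation at a rational point, for a relation `d R ≡ m(p)`. -/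
theorem good_tors (m : ZMod n → ℤ) (c : ℤ) (hv : TVal m c) :
    ∃ P0 : ℕ, ∀ p : ℕ, P0 ≤ p → ∀ d : ℤ,
      d * (∑ i, m i) ≡ ∑ i, m i * (p : ℤ) ^ i.val [ZMOD ((p : ℤ) ^ n - 1)] → Good p n d c := by
  obtain ⟨N, w, hN, hw1, hw2, hc⟩ := hv
  set R := ∑ i, m i with hR
  set S := ∑ i, |m i| with hS
  have hS0 : 0 ≤ S := Finset.sum_nonneg fun _ _ => abs_nonneg _
  set X0 : ℤ := ∑ i, |R * w i| + ∑ i, |act m w i| with hX0
  have hXa : ∀ i, |R * w i| ≤ X0 := by
    intro i
    have h1 : |R * w i| ≤ ∑ i, |R * w i| :=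
      Finset.single_le_sum (f := fun i => |R * w i|) (fun _ _ => abs_nonneg _) (mem_univ i)
    have h2 : 0 ≤ ∑ i, |act m w i| := Finset.sum_nonneg fun _ _ => abs_nonneg _
    linarith
  have hXb : ∀ i, |act m w i| ≤ X0 := by
    intro i
    have h1 : |act m w i| ≤ ∑ i, |act m w i| :=
      Finset.single_le_sum (f := fun i => |act m w i|) (fun _ _ => abs_nonneg _) (mem_univ i)
    have h2 : 0 ≤ ∑ i, |R * w i| := Finset.sum_nonneg fun _ _ => abs_nonneg _
    linarith
  set E : ℤ := N * (|R| + S) with hE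
  have hE0 : 0 ≤ E := mul_nonneg hN.le (by positivity)
  refine ⟨(3 * X0 + 2 * E + 3).toNat, fun p hp d hd => ?_⟩
  have hpD : 3 * X0 + 2 * E + 3 ≤ (p : ℤ) := Int.toNat_le.mp hp
  have hX00 : 0 ≤ X0 := (abs_nonneg _).trans (hXa 0)
  have hp2 : 2 ≤ p := by
    have : (2 : ℤ) ≤ p := by linarith
    exact_mod_cast this
  -- digits
  set β : ZMod n → ℤ := fun i => p * w i / N with hβ
  have hβ1 : ∀ i, |N * β i - p * w i| ≤ N := by
    intro i
    have h1 := Int.mul_ediv_add_emod (p * w i) N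
    have h2 := Int.emod_nonneg (p * w i) hN.ne'
    have h3 := Int.emod_lt_of_pos (p * w i) hN
    rw [abs_le]
    constructor <;> simp only [hβ] <;> linarith
  have hy1 : ∀ i, |N * (R * β i) - p * (R * w i)| ≤ E := by
    intro i
    have h1 : N * (R * β i) - p * (R * w i) = R * (N * β i - p * w i) := by ring
    rw [h1, abs_mul, hE]
    have h2 := mul_le_mul_of_nonneg_left (hβ1 i) (abs_nonneg R)
    nlinarith
  have hy2 : ∀ i, |N * act m β i - p * act m w i| ≤ E := by
    intro i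
    have h1 : N * act m β i - p * act m w i = ∑ k, m k * (N * β (i + k) - p * w (i + k)) := by
      unfold act
      rw [Finset.mul_sum, Finset.mul_sum, ← Finset.sum_sub_distrib]
      exact Finset.sum_congr rfl (fun k _ => by ring)
    rw [h1]
    calc |∑ k, m k * (N * β (i + k) - p * w (i + k))|
        ≤ ∑ k, |m k * (N * β (i + k) - p * w (i + k))| := Finset.abs_sum_le_sum_abs _ _
      _ ≤ ∑ k, |m k| * N := by
          apply Finset.sum_le_sum
          intro k _
          rw [abs_mul]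
          exact mul_le_mul_of_nonneg_left (hβ1 _) (abs_nonneg _)
      _ = S * N := by rw [hS, Finset.sum_mul]
      _ ≤ E := by
          rw [hE]
          nlinarith [abs_nonneg R]
  have hx1 : Y p n (fun i => R * β i) 0 = R * Y p n β 0 := by
    unfold Y
    rw [Finset.mul_sum]
    exact Finset.sum_congr rfl (fun i _ => by ring)
  obtain ⟨a1, a2⟩ := W_tors hp2 N E X0 hN hE0 (fun i => R * w i) (fun i => R * β i) hw1 hXa hy1 hpD
    (R * Y p n β 0) (by rw [hx1])
  have hx2 : d * (R * Y p n β 0) ≡ Y p n (act m β) 0 [ZMOD ((p : ℤ) ^ n - 1)] := by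
    have h1 := hd.mul_right (Y p n β 0)
    rw [← act_Y]
    have h2 : d * (R * Y p n β 0) = d * R * Y p n β 0 := by ring
    rw [h2]
    refine h1.trans ?_
    rw [Finset.sum_mul]
    apply Int.ModEq.sum
    intro k _
    rw [mul_assoc]
    exact (mul_Y (p := p) β k 0).mul_left (m k)
  obtain ⟨b1, b2⟩ := W_tors hp2 N E X0 hN hE0 (fun i => act m w i) (act m β) hw2 hXb hy2 hpD
    (d * (R * Y p n β 0)) hx2
  refine ⟨R * Y p n β 0, a1, ?_⟩
  have hQ : (0 : ℤ) ≤ (p : ℤ) ^ n - 1 := by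
    have : (1 : ℤ) ≤ (p : ℤ) ^ n := one_le_pow₀ (by exact_mod_cast (by omega : 1 ≤ p))
    linarith
  have h1 := mul_le_mul_of_nonneg_right hc hQ
  have h2 : ∑ i, R * β i = R * ∑ i, β i := by rw [Finset.mul_sum]
  rw [a2, b2, sum_act, ← hR, h2]
  nlinarith

end Pool.Agent.Helper53.KZ
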