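import Pool.Agent.Helper53.KZ.Tors

/-!
Support file for MP_0aa406_nt (helper53): from a game started at a torsion point to a value.
-/

set_option autoImplicit false

namespace Pool.Agent.Helper53.KZ

open Finset Pool.Agent.Helper18.Katz

variable {n : ℕ} [NeZero n]

theorem act_smul (m z : ZMod n → ℤ) (K : ℤ) (l : ZMod n) :
    act m (fun i => K * z i) l = K * act m z l := by
  unfold act
  rw [Finset.mul_sum]
  exact Finset.sum_congr rfl (fun i _ => by ring)

theorem act_neg (m z : ZMod n → ℤ) (l : ZMod n) :
    act m (fun i => - z i) l = - act m z l := by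
  unfold act
  rw [← Finset.sum_neg_distrib]
  exact Finset.sum_congr rfl (fun i _ => by ring)

/-- division of a number which is close to a multiple -/
theorem ediv_near {M a t : ℤ} (ha : a ≠ 0) (hlt : |a| < M) :
    ¬ M ∣ (M * t + a) ∧ (M * t + a) / M = t - (if a < 0 then 1 else 0) := by
  have hM : 0 < M := (abs_nonneg a).trans_lt hlt
  have h1 := abs_lt.mp hlt
  constructor
  · intro h
    have h2 : M ∣ a := (Int.dvd_add_right (Dvd.intro t rfl)).mp h
    have := Int.eq_zero_of_abs_lt_dvd h2 hlt
    exact ha this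
  · rw [add_comm, Int.add_mul_ediv_left _ _ hM.ne']
    split_ifs with h
    · have : a / M = -1 := by
        have h3 : a = M * (-1) + (a + M) := by ring
        rw [h3, add_comm, Int.add_mul_ediv_left _ _ hM.ne', Int.ediv_eq_zero_of_lt (by linarith) (by linarith)]
        ring
      linarith
    · have : a / M = 0 := Int.ediv_eq_zero_of_lt (by linarith) (by linarith)
      linarith

/-- the value at a torsion point -/
theorem tors_value (m : ZMod n → ℤ) (hR : 0 < ∑ i, m i) (D : ℤ) (hD : 0 < D)
    (hDR : D ∣ ∑ i, m i) (z : ZMod n → ℤ) (hz : ∀ i, z i ≠ 0) (x : ZMod n → ℤ)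
    (hact : ∀ l, D ∣ act m x l → act m z l ≠ 0) :
    ∃ (N : ℤ) (w : ZMod n → ℤ), 0 < N ∧ (∀ i, ¬ N ∣ (∑ k, m k) * w i) ∧ (∀ i, ¬ N ∣ act m w i) ∧
      D * (∑ i, ((∑ k, m k) * w i / N) - ∑ i, (act m w i / N)) =
        (∑ l, act m x l % D) +
          D * (((univ.filter (fun l => D ∣ act m x l)).filter (fun l => act m z l < 0)).card -
            (univ.filter (fun i => z i < 0)).card) := by
  set R := ∑ i, m i with hRdef
  obtain ⟨K0, hK0, hK1, hK2⟩ := exists_big m z
  set K : ℤ := K0 * R with hK
  have hR1 : 1 ≤ R := hR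
  have hKpos : 0 < K := mul_pos hK0 hR
  have hKK : K0 ≤ K := by rw [hK]; nlinarith
  have hKz : ∀ i, |R * z i| < K := by
    intro i
    rw [abs_mul, abs_of_pos hR, hK, mul_comm K0]
    exact mul_lt_mul_of_pos_left (hK2 i) hR
  have hKa : ∀ l, |act m z l| < K := fun l => (hK1 l).trans_le hKK
  have hKD : K ≤ K * D := by nlinarith
  obtain ⟨R', hR'⟩ := hDR
  set w : ZMod n → ℤ := fun i => K * x i + z i with hw
  have hactw : ∀ l, act m w l = K * act m x l + act m z l := by
    intro l
    rw [hw, act_add (n := n) m (fun i => K * x i) z, act_smul]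
  have hRw : ∀ i, R * w i = (K * D) * (R' * x i) + R * z i := by
    intro i
    rw [hw]
    simp only
    rw [mul_add]
    congr 1
    rw [hR']
    ring
  have h1 : ∀ i, ¬ (K * D) ∣ R * w i ∧
      R * w i / (K * D) = R' * x i - (if z i < 0 then 1 else 0) := by
    intro i
    have h2 := ediv_near (M := K * D) (a := R * z i) (t := R' * x i)
      (mul_ne_zero hR.ne' (hz i)) ((hKz i).trans_le hKD)
    rw [hRw i]
    have h3 : (R * z i < 0) ↔ z i < 0 := by
      constructor
      · intro h
        by_contra hcon
        push Not at hcon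
        have := mul_nonneg hR.le hcon
        linarith
      · intro h; exact mul_neg_of_pos_of_neg hR h
    simp only [h3] at h2
    exact h2
  have h2 : ∀ l, ¬ (K * D) ∣ act m w l ∧
      act m w l / (K * D) = act m x l / D -
        (if D ∣ act m x l ∧ act m z l < 0 then 1 else 0) := by
    intro l
    by_cases hdv : D ∣ act m x l
    · obtain ⟨t, ht⟩ := hdv
      have h3 := ediv_near (M := K * D) (a := act m z l) (t := t)
        (hact l ⟨t, ht⟩) ((hKa l).trans_le hKD)
      have h4 : act m w l = (K * D) * t + act m z l := by rw [hactw, ht]; ring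
      rw [h4]
      refine ⟨h3.1, ?_⟩
      rw [h3.2, ht, Int.mul_ediv_cancel_left _ hD.ne']
      simp
    · have hr := Int.mul_ediv_add_emod (act m x l) D
      set t := act m x l / D with ht
      set r := act m x l % D with hrdef
      have hr0 : 0 ≤ r := Int.emod_nonneg _ hD.ne'
      have hr1 : r < D := Int.emod_lt_of_pos _ hD
      have hr2 : r ≠ 0 := fun h => hdv (Int.dvd_of_emod_eq_zero h)
      have hr3 : 1 ≤ r := by omega
      have h5 := abs_lt.mp (hKa l)
      have h6 : act m w l = (K * D) * t + (K * r + act m z l) := by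
        rw [hactw, ← hr]; ring
      have h7 : 0 < K * r + act m z l := by nlinarith
      have h8 : K * r + act m z l < K * D := by nlinarith
      have h9 := ediv_near (M := K * D) (a := K * r + act m z l) (t := t) h7.ne'
        (by rw [abs_of_pos h7]; exact h8)
      rw [h6]
      refine ⟨h9.1, ?_⟩
      rw [h9.2, if_neg (by linarith), if_neg (fun h => hdv h.1)]
  refine ⟨K * D, w, mul_pos hKpos hD, fun i => (h1 i).1, fun l => (h2 l).1, ?_⟩
  rw [Finset.sum_congr rfl (fun i _ => (h1 i).2), Finset.sum_congr rfl (fun l _ => (h2 l).2),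
    Finset.sum_sub_distrib, Finset.sum_sub_distrib]
  have e1 : (∑ i, if z i < 0 then (1 : ℤ) else 0) = ((univ.filter (fun i => z i < 0)).card : ℤ) := by
    rw [Finset.card_filter]; push_cast; rfl
  have e2 : (∑ l, if D ∣ act m x l ∧ act m z l < 0 then (1 : ℤ) else 0) =
      (((univ.filter (fun l => D ∣ act m x l)).filter (fun l => act m z l < 0)).card : ℤ) := by
    rw [Finset.filter_filter, Finset.card_filter]; push_cast; rfl
  rw [e1, e2]
  have e3 : ∑ l, act m x l = D * ∑ l, act m x l / D + ∑ l, act m x l % D := by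
    rw [Finset.mul_sum, ← Finset.sum_add_distrib]
    exact Finset.sum_congr rfl (fun l _ => (Int.mul_ediv_add_emod _ _).symm)
  have e4 : ∑ l, act m x l = D * ∑ i, R' * x i := by
    rw [sum_act, ← hRdef, hR', ← Finset.mul_sum]; ring
  linear_combination e4.symm.trans e3

/-- a game started at a torsion point -/
theorem tval_of_tors (m : ZMod n → ℤ) (hR : 0 < ∑ i, m i) (D : ℤ) (hD : 0 < D)
    (hDR : D ∣ ∑ i, m i) (x : ZMod n → ℤ) (v c : ℤ)
    (h : HasVal m (univ.filter (fun l => D ∣ act m x l)) v)
    (hc : 2 * c ≤ n - (univ.filter (fun l => D ∣ act m x l)).card + 2 * v) : TVal m c := by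
  obtain ⟨z, hz, hact, hv⟩ := h
  set U := univ.filter (fun l => D ∣ act m x l) with hU
  have hUneg : univ.filter (fun l => D ∣ act m (fun i => - x i) l) = U := by
    rw [hU]
    apply Finset.filter_congr
    intro l _
    rw [act_neg, dvd_neg]
  have hact' : ∀ l, D ∣ act m x l → act m z l ≠ 0 := fun l hl => hact l (by simp [hU, hl])
  obtain ⟨N, w, hN, hw1, hw2, hw3⟩ := tors_value m hR D hD hDR z hz x hact'
  obtain ⟨N', w', hN', hw1', hw2', hw3'⟩ := tors_value m hR D hD hDR z hz (fun i => - x i)
    (fun l hl => hact' l (by rwa [act_neg, dvd_neg] at hl))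
  rw [← hU] at hw3
  rw [hUneg] at hw3'
  have hsum : ∑ l, act m x l % D + ∑ l, act m (fun i => - x i) l % D = D * (n - U.card) := by
    rw [← Finset.sum_add_distrib]
    have h1 : ∀ l, act m x l % D + act m (fun i => - x i) l % D =
        if D ∣ act m x l then 0 else D := by
      intro l
      rw [act_neg]
      split_ifs with hdv
      · rw [Int.emod_eq_zero_of_dvd hdv, Int.emod_eq_zero_of_dvd ((dvd_neg).mpr hdv)]; rfl
      · have r0 := Int.emod_nonneg (act m x l) hD.ne'
        have r1 := Int.emod_lt_of_pos (act m x l) hD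
        have r2 : act m x l % D ≠ 0 := fun h => hdv (Int.dvd_of_emod_eq_zero h)
        have h3 : (- act m x l) % D = D - act m x l % D := by
          have h4 : - act m x l = (D - act m x l % D) + D * (-(act m x l / D) - 1) := by
            have := Int.mul_ediv_add_emod (act m x l) D
            linear_combination this
          rw [h4, Int.add_mul_emod_self_left]
          exact Int.emod_eq_of_lt (by omega) (by omega)
        rw [h3]; ring
    rw [Finset.sum_congr rfl (fun l _ => h1 l)]
    have h5 := Finset.card_filter_add_card_filter_not (s := (univ : Finset (ZMod n)))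
      (fun l => D ∣ act m x l)
    rw [Finset.card_univ, ZMod.card, ← hU] at h5
    rw [Finset.sum_ite, Finset.sum_const_zero, zero_add, Finset.sum_const, nsmul_eq_mul]
    have h6 : ((univ.filter (fun l => ¬ D ∣ act m x l)).card : ℤ) = n - U.card := by
      have : ((U.card + (univ.filter (fun l => ¬ D ∣ act m x l)).card : ℕ) : ℤ) = n := by
        exact_mod_cast h5
      push_cast at this
      linarith
    rw [h6]; ring
  have hcmp : ∀ S V : ℤ, D * (n - U.card) ≤ 2 * S → D * V = S + D *
      (((U.filter (fun l => act m z l < 0)).card : ℤ) - (univ.filter (fun i => z i < 0)).card) →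
      c ≤ V := by
    intro S V h1 h2
    have h3 := mul_le_mul_of_nonneg_left hv hD.le
    have h4 := mul_le_mul_of_nonneg_left hc hD.le
    have h5 : D * c ≤ D * V := by nlinarith
    exact le_of_mul_le_mul_left h5 hD
  rcases le_total (D * (n - U.card)) (2 * ∑ l, act m x l % D) with h1 | h1
  · exact ⟨N, w, hN, hw1, hw2, hcmp _ _ h1 hw3⟩
  · exact ⟨N', w', hN', hw1', hw2', hcmp _ _ (by linarith) hw3'⟩

theorem TVal.of_hasVal {m : ZMod n → ℤ} (hR : 0 < ∑ i, m i) {c : ℤ} (h : HasVal m univ c) :
    TVal m c := by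
  have hU : univ.filter (fun l => (1 : ℤ) ∣ act m (fun _ => 0) l) = univ := by
    simp
  refine tval_of_tors m hR 1 one_pos (one_dvd _) (fun _ => 0) c c (by rw [hU]; exact h) ?_
  rw [hU, Finset.card_univ, ZMod.card]
  linarith

end Pool.Agent.Helper53.KZ
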