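import Pool.Agent.Helper53.KZ.Conv

/-!
Support file for MP_0aa406_nt (helper53): units of `ℤ[C_n]`, `n` odd, have odd excess; the case of
excess two.
-/

set_option autoImplicit false

namespace Pool.Agent.Helper53.KZ

open Finset Pool.Agent.Helper18.Katz

section units

variable {n : ℕ} [NeZero n]

theorem star_star {A : Type*} (u : ZMod n → A) : star' (star' u) = u := by
  funext s; simp [star']

theorem dl_cv (f : ZMod n → ℤ) : cv (dl n 0) f = f := by
  funext s; rw [cv_dl, sub_zero]

theorem unit_symm (m0 m1 : ZMod n → ℤ) (h : ∀ s, cv m0 m1 s = dl n 0 s)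
    (hs : ∑ i, m0 i = 1) : ∃ k, ∀ s, m0 s = m0 (k - s) := by
  have H : cv m0 m1 = dl n 0 := funext h
  have Hs : cv (star' m1) (star' m0) = dl n 0 := by
    rw [cv_comm, ← star_cv, H, star_dl_zero]
  set W := cv m0 (star' m1) with hW
  have h1 : cv W (star' W) = dl n 0 := by
    rw [hW, star_cv, star_star, cv_assoc, ← cv_assoc (star' m1), Hs, dl_cv, H]
  have h2 : ∑ l, W l * W l = 1 := by
    have := congrFun h1 0
    unfold cv star' at this
    simp only [dl, if_true, zero_sub, neg_neg] at this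
    exact this
  have hs1 : ∑ i, m1 i = 1 := by
    have h3 := sum_cv m0 m1
    rw [H, sum_dl, hs, one_mul] at h3
    exact h3.symm
  have hWs : ∑ i, W i = 1 := by
    rw [hW, sum_cv, sum_star, hs, hs1, one_mul]
  obtain ⟨k, hk⟩ : ∃ k, W k ≠ 0 := by
    by_contra hcon
    push Not at hcon
    rw [Finset.sum_eq_zero (fun i _ => hcon i)] at hWs
    exact zero_ne_one hWs
  have hothers : ∀ l, l ≠ k → W l = 0 := by
    intro l hl
    by_contra hne
    have h5 : ∑ i ∈ ({l, k} : Finset (ZMod n)), W i * W i ≤ ∑ i, W i * W i :=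
      Finset.sum_le_sum_of_subset_of_nonneg (Finset.subset_univ _)
        (fun i _ _ => mul_self_nonneg _)
    rw [Finset.sum_pair hl, h2] at h5
    have h6 : 0 < W l * W l := mul_self_pos.mpr hne
    have h7 : 0 < W k * W k := mul_self_pos.mpr hk
    omega
  have hWk : W k = 1 := by
    rw [← hWs]
    exact (Finset.sum_eq_single k (fun i _ hi => hothers i hi)
      (fun h => absurd (mem_univ _) h)).symm
  have hWd : W = dl n k := by
    funext s
    unfold dl
    split_ifs with hsk
    · rw [hsk, hWk]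
    · exact hothers s hsk
  refine ⟨k, fun s => ?_⟩
  have h8 : cv W (star' m0) = m0 := by
    rw [hW, cv_assoc, Hs, cv_comm, dl_cv]
  have h9 := congrFun h8 s
  rw [hWd, cv_dl] at h9
  unfold star' at h9
  rw [← h9]
  congr 1
  ring

theorem symm_parity (hodd : Odd n) (k : ZMod n) : ∃ t0 : ZMod n, ∀ F : ZMod n → ℤ,
    (∀ s, F s = F (k - s)) → (2 : ℤ) ∣ ∑ s, F s - F t0 := by
  obtain ⟨r, hr⟩ := hodd
  have hn0 : ((n : ℕ) : ZMod n) = 0 := ZMod.natCast_self n
  have h2 : (2 : ZMod n) * ((r + 1 : ℕ) : ZMod n) = 1 := by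
    have h3 : ((2 * (r + 1) : ℕ) : ZMod n) = ((n + 1 : ℕ) : ZMod n) := by
      congr 1; omega
    push_cast at h3 ⊢
    rw [h3, hn0, zero_add]
  refine ⟨k * ((r + 1 : ℕ) : ZMod n), fun F hF => ?_⟩
  set t0 := k * ((r + 1 : ℕ) : ZMod n) with ht0
  have hfix : ∀ s, k - s = s → s = t0 := by
    intro s hs
    have h4 : k = 2 * s := by linear_combination hs
    rw [ht0, h4]
    linear_combination (-s) * h2
  have hfix0 : k - t0 = t0 := by
    rw [ht0]
    linear_combination (-k) * h2
  have hcast := ZMod.intCast_zmod_eq_zero_iff_dvd (∑ s, F s - F t0) 2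
  push_cast at hcast
  rw [← hcast]
  have h5 : ∑ s, ((F s : ℤ) : ZMod 2) - ((F t0 : ℤ) : ZMod 2) =
      ∑ s ∈ univ.erase t0, ((F s : ℤ) : ZMod 2) := by
    rw [← Finset.add_sum_erase univ (fun s => ((F s : ℤ) : ZMod 2)) (mem_univ t0)]; ring
  rw [h5]
  apply Finset.sum_involution (fun s _ => k - s)
  · intro s _
    rw [← hF s]
    exact CharTwo.add_self_eq_zero _
  · intro s hs _ h6
    exact (Finset.ne_of_mem_erase hs) (hfix s h6)
  · intro s hs
    rw [mem_erase]
    refine ⟨fun h6 => ?_, mem_univ _⟩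
    apply Finset.ne_of_mem_erase hs
    have h7 : s = k - t0 := by rw [← h6]; ring
    rw [h7, hfix0]
  · intro s _
    ring

/-- the excess of a unit is odd -/
theorem unit_excess (hodd : Odd n) (m0 m1 : ZMod n → ℤ) (h : ∀ s, cv m0 m1 s = dl n 0 s)
    (hs : ∑ i, m0 i = 1) :
    ((univ.filter (fun i => 0 < m0 i)).card : ℤ) - (univ.filter (fun i => m0 i < 0)).card ≠ 2 := by
  intro he
  obtain ⟨k, hk⟩ := unit_symm m0 m1 h hs
  obtain ⟨t0, ht0⟩ := symm_parity hodd k
  have h1 := ht0 m0 hk
  have h2 := ht0 (fun s => (if 0 < m0 s then 1 else 0) - (if m0 s < 0 then 1 else 0)) (by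
    intro s; rw [← hk s])
  have e1 : ∑ s, ((if 0 < m0 s then (1 : ℤ) else 0) - (if m0 s < 0 then 1 else 0)) = 2 := by
    rw [Finset.sum_sub_distrib, ← he, Finset.card_filter, Finset.card_filter]
    push_cast; rfl
  rw [hs] at h1
  rw [e1] at h2
  have h3 : m0 t0 ≠ 0 := by
    intro h0
    rw [h0] at h1
    norm_num at h1
  rcases lt_or_gt_of_ne h3 with h4 | h4
  · rw [if_neg (by linarith), if_pos h4] at h2
    norm_num at h2
  · rw [if_pos h4, if_neg (by linarith)] at h2
    norm_num at h2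

theorem card_scale {m m0 : ZMod n → ℤ} {R : ℤ} (hR : 0 < R) (hm : ∀ t, m t = R * m0 t) :
    univ.filter (fun i => 0 < m i) = univ.filter (fun i => 0 < m0 i) ∧
    univ.filter (fun i => m i < 0) = univ.filter (fun i => m0 i < 0) := by
  constructor
  · apply Finset.filter_congr
    intro i _
    rw [hm, mul_pos_iff_of_pos_left hR]
  · apply Finset.filter_congr
    intro i _
    rw [hm]
    constructor
    · intro h
      by_contra hcon
      push Not at hcon
      have := mul_nonneg hR.le hcon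
      linarith
    · intro h; exact mul_neg_of_pos_of_neg hR h

/-- excess two: reduction to the non-integral case, and the other patterns for the inverse. `c` is
the wanted value; `hgame` is the result of the game for the patterns which are not of excess two with a
negative entry; `hNZ` says that sets (of the relevant size) are not zero divisors. -/
theorem tval_excess_two (hodd : Odd n) (c : ℤ)
    (hgame : ∀ m : ZMod n → ℤ, 0 < ∑ i, m i → 2 ≤ (univ.filter (fun i => m i ≠ 0)).card →
      ¬ (((univ.filter (fun i => 0 < m i)).card : ℤ) - (univ.filter (fun i => m i < 0)).card = 2 ∧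
        ∃ t, m t < 0) → TVal m c)
    (htwo : ∀ m : ZMod n → ℤ, 0 < ∑ i, m i → (∃ t, ¬ (∑ i, m i) ∣ m t) →
      ((univ.filter (fun i => 0 < m i)).card : ℤ) - (univ.filter (fun i => m i < 0)).card = 2 →
      (∃ t, m t < 0) → TVal m c)
    (m : ZMod n → ℤ) (hR : 0 < ∑ i, m i) (hτ : 2 ≤ (univ.filter (fun i => m i ≠ 0)).card)
    (hinv : ∀ ζ : ℂ, ζ ^ n = 1 → ev ζ (fun i => (m i : ℂ)) ≠ 0) : TVal m c := by
  classical
  by_cases hcase : ((univ.filter (fun i => 0 < m i)).card : ℤ) -
      (univ.filter (fun i => m i < 0)).card = 2 ∧ ∃ t, m t < 0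
  swap
  · exact hgame m hR hτ hcase
  by_cases hnon : ∃ t, ¬ (∑ i, m i) ∣ m t
  · exact htwo m hR hnon hcase.1 hcase.2
  push Not at hnon
  set R := ∑ i, m i with hRdef
  choose m0 hm0 using hnon
  have hs0 : ∑ i, m0 i = 1 := by
    have h1 : R = R * ∑ i, m0 i := by
      rw [Finset.mul_sum]
      conv_lhs => rw [hRdef]
      exact Finset.sum_congr rfl (fun i _ => hm0 i)
    have h2 : R * ∑ i, m0 i = R * 1 := by rw [mul_one]; exact h1.symm
    exact mul_left_cancel₀ hR.ne' h2
  have hev0 : ∀ ζ : ℂ, ζ ^ n = 1 → ev ζ (fun i => (m0 i : ℂ)) ≠ 0 := by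
    intro ζ hζ h0
    apply hinv ζ hζ
    have h1 : ev ζ (fun i => (m i : ℂ)) = R * ev ζ (fun i => (m0 i : ℂ)) := by
      unfold ev
      rw [Finset.mul_sum]
      refine Finset.sum_congr rfl (fun i _ => ?_)
      have h2 : (m i : ℂ) = R * m0 i := by rw [hm0 i]; push_cast; rfl
      simp only [h2]
      ring
    rw [h1, h0, mul_zero]
  obtain ⟨m1, D, hD, hconv⟩ := exists_inv m0 hev0
  have hs1 : ∑ i, m1 i = D := by
    have h1 := sum_cv m0 m1
    rw [Finset.sum_congr rfl (fun s _ => hconv s), ← Finset.mul_sum, sum_dl, hs0, one_mul,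
      mul_one] at h1
    exact h1.symm
  have hcs := card_scale hR hm0
  have he0 : ((univ.filter (fun i => 0 < m0 i)).card : ℤ) -
      (univ.filter (fun i => m0 i < 0)).card = 2 := by
    rw [← hcs.1, ← hcs.2]; exact hcase.1
  -- the inverse is not integral
  have hnon1 : ∃ t, ¬ (∑ i, m1 i) ∣ m1 t := by
    by_contra hcon
    push Not at hcon
    rw [hs1] at hcon
    choose m2 hm2 using hcon
    refine unit_excess hodd m0 m2 (fun s => ?_) hs0 he0
    have h1 := hconv s
    have h2 : cv m0 m1 s = D * cv m0 m2 s := by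
      unfold cv
      rw [Finset.mul_sum]
      exact Finset.sum_congr rfl (fun i _ => by rw [hm2]; ring)
    rw [h2] at h1
    exact mul_left_cancel₀ hD.ne' h1
  have hs1pos : 0 < ∑ i, m1 i := by rw [hs1]; exact hD
  have hτ1 : 2 ≤ (univ.filter (fun i => m1 i ≠ 0)).card := by
    by_contra hcon
    push Not at hcon
    have hle : (univ.filter (fun i => m1 i ≠ 0)).card ≤ 1 := by omega
    obtain ⟨t, ht⟩ := hnon1
    have ht0 : m1 t ≠ 0 := fun h0 => ht (by rw [h0]; exact dvd_zero _)
    apply ht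
    have huniq : ∀ i, i ≠ t → m1 i = 0 := by
      intro i hi
      by_contra hmi
      rw [Finset.card_le_one] at hle
      exact hi (hle i (by simpa using hmi) t (by simpa using ht0))
    have h1 : ∑ i, m1 i = m1 t := Finset.sum_eq_single t (fun i _ hi => huniq i hi)
      (fun h => absurd (mem_univ _) h)
    rw [h1]
  have hv1 : TVal m1 c := by
    by_cases hcase1 : ((univ.filter (fun i => 0 < m1 i)).card : ℤ) -
        (univ.filter (fun i => m1 i < 0)).card = 2 ∧ ∃ t, m1 t < 0
    · exact htwo m1 hs1pos hnon1 hcase1.1 hcase1.2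
    · exact hgame m1 hs1pos hτ1 hcase1
  exact TVal.scale hR hm0 hs0 (TVal.inv hs0 hs1 hconv hv1)

end units

end Pool.Agent.Helper53.KZ
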